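import Pool.Agent.AllS.Path82

/-! The zigzag with a prescribed last vertex. -/

namespace Pool.Agent.AllS

open Pool.Agent.AltPath Pool.Agent.AltHP

/-- e is not an end of a bridge as long as its class has another point. -/
theorem br_ne_end {a a' : ℝ × ℝ} {X Y : Finset (ℝ × ℝ)} {c d e y : ℝ × ℝ} {s κ : ℝ}
    (hbr : Br a a' X Y c d s) (hX : ∀ q ∈ X, dt a e < dt a q) (hy : y ∈ Y) (hye : y ≠ e)
    (hay : dt a y < dt a e) (hXκ : ∀ q ∈ X, dt (a' - κ • a) e < dt (a' - κ • a) q)
    (hyκ : dt (a' - κ • a) e < dt (a' - κ • a) y) : d ≠ e := by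
  rintro rfl
  obtain ⟨hc, hd, h1, h2, h3⟩ := hbr
  have i1 := h3 y hy
  have i2 := hX c hc
  have i3 := hXκ c hc
  rw [dt_sub_smul, dt_sub_smul] at h1 i1 i3 hyκ
  have e1 : s < κ := by
    by_contra hcon
    push Not at hcon
    have := mul_nonneg (sub_nonneg.2 hcon) (sub_nonneg.2 hay.le)
    nlinarith
  have := mul_pos (sub_pos.2 e1) (sub_pos.2 i2)
  nlinarith

/-- The zigzag path of zig with prescribed last vertex e. -/
theorem zig_end {S : Finset (ℝ × ℝ)} (hgp : GP S) (e : ℝ × ℝ) : ∀ (m : ℕ) (a a' c : ℝ × ℝ)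
    (κ : ℝ) (X Y : Finset (ℝ × ℝ)), X.card + Y.card = m → cr a a' ≠ 0 → X ⊆ S → Y ⊆ S → c ∉ Y →
    ((e ∈ Y ∧ Y.card = X.card + 1) ∨ (e ∈ X ∧ X.card = Y.card)) →
    (∀ p ∈ X, ∀ q ∈ Y, dt a q < dt a p) →
    (∀ p ∈ X, p ≠ e → dt a e < dt a p) → (∀ q ∈ Y, q ≠ e → dt a q < dt a e) →
    (∀ q ∈ X ∪ Y, q ≠ e → dt (a' - κ • a) e < dt (a' - κ • a) q) →
    (∀ c' d' s, Br a a' X Y c' d' s → dt (a' - s • a) d' < dt (a' - s • a) c) →
    ∃ l : List (ℝ × ℝ), (l ++ [e]).Nodup ∧ (∀ q, q ∈ l ++ [e] ↔ q ∈ X ∪ Y) ∧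
      (l ++ [e]).length = X.card + Y.card ∧
      Good c (l ++ [e]) ∧ ∀ (T : Finset (ℝ × ℝ)) (b : Bool), (∀ q ∈ X, (q ∈ T ↔ b = true)) →
        (∀ q ∈ Y, (q ∈ T ↔ b = false)) → Alt T b (l ++ [e]) := by
  classical
  intro m
  induction m using Nat.strong_induction_on with
  | _ m ih =>
  intro a a' c κ X Y hm ha hXS hYS hcY hcard hs hXe hYe hκ hbey
  have hY : Y.Nonempty := by
    rcases hcard with ⟨h, -⟩ | ⟨h, h'⟩
    · exact ⟨e, h⟩
    · rw [← Finset.card_pos, ← h', Finset.card_pos]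
      exact ⟨e, h⟩
  rcases Finset.eq_empty_or_nonempty X with rfl | hX
  · obtain ⟨heY, hY1⟩ : e ∈ Y ∧ Y.card = 1 := by
      rcases hcard with ⟨h, h'⟩ | ⟨h, -⟩
      · exact ⟨h, by simpa using h'⟩
      · exact absurd h (Finset.notMem_empty _)
    obtain ⟨d, rfl⟩ := Finset.card_eq_one.mp hY1
    have hed : e = d := Finset.mem_singleton.1 heY
    subst hed
    have hce : c ≠ e := by
      rintro rfl
      exact hcY (Finset.mem_singleton_self c)
    refine ⟨[], by simp, by simp, by simp, ⟨⟨e - c, ?_, by simp⟩, trivial⟩, ?_⟩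
    · have := dt_self_pos (sub_ne_zero.mpr hce.symm)
      have e0 : dt (e - c) (c - e) = - dt (e - c) (e - c) := by
        simp only [dt, Prod.fst_sub, Prod.snd_sub]; ring
      rw [e0]; linarith
    · intro T b _ hT
      exact ⟨hT e (Finset.mem_singleton_self e), trivial⟩
  obtain ⟨c', d, s, hbr⟩ := exists_bridge a a' hX hY hs
  have hd : d ∈ Y := hbr.2.1
  -- the removed end is not e
  have hde : d ≠ e := by
    rcases hcard with ⟨h, h'⟩ | ⟨h, -⟩
    · have h2 : 1 < Y.card := by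
        have := Finset.card_pos.2 hX
        omega
      obtain ⟨y, hy, hye⟩ := Finset.exists_mem_ne h2 e
      have heX : e ∉ X := fun h3 => lt_irrefl _ (hs e h3 e h)
      exact br_ne_end hbr (fun q hq => hXe q hq (fun h0 => heX (h0 ▸ hq))) hy hye (hYe y hy hye)
        (fun q hq => hκ q (Finset.mem_union_left _ hq) (fun h0 => heX (h0 ▸ hq)))
        (hκ y (Finset.mem_union_right _ hy) hye)
    · rintro rfl
      exact lt_irrefl _ (hs d h d hd)
  have hvis := hbr.edge hgp ha hXS hYS hs (hbey c' d s hbr)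
  obtain ⟨-, v, hv, hv'⟩ := hvis
  have hcardY : (Y.erase d).card = Y.card - 1 := Finset.card_erase_of_mem hd
  have hYpos := Finset.card_pos.mpr hY
  have hs' : ∀ p ∈ Y.erase d, ∀ q ∈ X, dt (-a) q < dt (-a) p := by
    intro p hp q hq
    rw [dt_neg_left, dt_neg_left]
    have := hs q hq p (Finset.mem_erase.mp hp).2
    linarith
  have ha' : cr (-a) a' ≠ 0 := by
    intro h0
    apply ha
    simp only [cr, Prod.fst_neg, Prod.snd_neg] at h0 ⊢
    linarith
  have hdX : d ∉ X := fun h => lt_irrefl _ (hs d h d hd)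
  obtain ⟨l, hnd, hmem, hlen, hgood, halt⟩ := ih (m - 1) (by omega) (-a) a' d (-κ) (Y.erase d) X
    (by omega) ha' ((Finset.erase_subset d Y).trans hYS) hXS hdX
    (by
      rcases hcard with ⟨h, h'⟩ | ⟨h, h'⟩
      · exact Or.inr ⟨Finset.mem_erase.2 ⟨hde.symm, h⟩, by omega⟩
      · exact Or.inl ⟨h, by omega⟩) hs'
    (by
      intro p hp hpe
      rw [dt_neg_left, dt_neg_left]
      have := hYe p (Finset.mem_erase.1 hp).2 hpe
      linarith)
    (by
      intro q hq hqe
      rw [dt_neg_left, dt_neg_left]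
      have := hXe q hq hqe
      linarith)
    (by
      intro q hq hqe
      have e0 : a' - (-κ) • (-a) = a' - κ • a := by rw [neg_smul, smul_neg, neg_neg]
      rw [e0]
      refine hκ q ?_ hqe
      rcases Finset.mem_union.1 hq with h | h
      · exact Finset.mem_union_right _ (Finset.mem_erase.1 h).2
      · exact Finset.mem_union_left _ h)
    (by
      intro c'' d'' s'' hbr''
      have h3 := hbr''.unswap
      have h4 := hbr.beyond hgp ha hXS hYS hs h3
      have h5 := h3.2.2.1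
      have e : a' - (-s'') • a = a' - s'' • (-a) := by rw [neg_smul, smul_neg]
      rw [e] at h4 h5
      rw [← h5]; exact h4)
  have hmem' : ∀ q, q ∈ d :: (l ++ [e]) ↔ q ∈ X ∪ Y := by
    intro q
    rw [List.mem_cons, hmem, Finset.mem_union, Finset.mem_union, Finset.mem_erase]
    constructor
    · rintro (rfl | ⟨_, h⟩ | h)
      · exact Or.inr hd
      · exact Or.inr h
      · exact Or.inl h
    · rintro (h | h)
      · exact Or.inr (Or.inr h)
      · by_cases hq : q = d
        · exact Or.inl hq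
        · exact Or.inr (Or.inl ⟨hq, h⟩)
  have hdl : d ∉ l ++ [e] := by
    intro h
    rcases Finset.mem_union.mp ((hmem d).mp h) with h | h
    · exact (Finset.mem_erase.mp h).1 rfl
    · exact hdX h
  refine ⟨d :: l, List.nodup_cons.mpr ⟨hdl, hnd⟩, hmem', ?_, ⟨⟨v, hv', ?_⟩, hgood⟩, ?_⟩
  · rw [List.cons_append, List.length_cons, hlen, hcardY]; omega
  · intro r hr
    refine hv r ((hmem' r).mp (List.mem_cons_of_mem d hr)) ?_
    rintro rfl
    exact hdl hr
  · intro T b hTX hTY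
    refine ⟨hTY d hd, halt T (!b) ?_ ?_⟩
    · intro q hq
      rw [hTY q (Finset.mem_erase.mp hq).2]
      cases b <;> simp
    · intro q hq
      rw [hTX q hq]
      cases b <;> simp

/-- **Cell.** c and e are on a line h (direction a is constant on it), X is on one side and Y on the
other one, except for e which may belong to either; all points are strictly before the line w0
through c, and strictly after the line w1 through e, which has c on the same side. The zigzag from
c through all points of X and Y, starting in Y, ends in e. -/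
theorem cell82 {S : Finset (ℝ × ℝ)} (hgp : GP S) {a w0 w1 c e : ℝ × ℝ} (ha : a ≠ 0)
    {X Y : Finset (ℝ × ℝ)} (hXS : X ⊆ S) (hYS : Y ⊆ S) (hce : dt a (e - c) = 0)
    (haX : ∀ q ∈ X, q ≠ e → 0 < dt a (q - c)) (haY : ∀ q ∈ Y, q ≠ e → dt a (q - c) < 0)
    (h0 : ∀ q ∈ X ∪ Y, dt w0 (q - c) < 0) (h1 : ∀ q ∈ X ∪ Y, q ≠ e → 0 < dt w1 (q - e))
    (h1c : 0 < dt w1 (c - e))
    (hcard : (e ∈ Y ∧ Y.card = X.card + 1) ∨ (e ∈ X ∧ X.card = Y.card)) (hdis : Disjoint X Y) :
    ∃ l : List (ℝ × ℝ), (l ++ [e]).Nodup ∧ (∀ q, q ∈ l ++ [e] ↔ q ∈ X ∪ Y) ∧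
      (l ++ [e]).length = X.card + Y.card ∧
      Good c (l ++ [e]) ∧ ∀ (T : Finset (ℝ × ℝ)) (b : Bool), (∀ q ∈ X, (q ∈ T ↔ b = true)) →
        (∀ q ∈ Y, (q ∈ T ↔ b = false)) → Alt T b (l ++ [e]) := by
  classical
  have heXY : e ∈ X ∪ Y := by
    rcases hcard with ⟨h, -⟩ | ⟨h, -⟩
    · exact Finset.mem_union_right _ h
    · exact Finset.mem_union_left _ h
  have h0e := h0 e heXY
  have hae : ∀ q, dt a (q - c) = dt a q - dt a e := by
    intro q
    rw [dt_sub] at hce ⊢
    linarith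
  -- the sides
  have hXe : ∀ p ∈ X, p ≠ e → dt a e < dt a p := fun p hp hpe => by
    have := haX p hp hpe
    rw [hae] at this
    linarith
  have hYe : ∀ q ∈ Y, q ≠ e → dt a q < dt a e := fun q hq hqe => by
    have := haY q hq hqe
    rw [hae] at this
    linarith
  have hX' : ∀ p ∈ X, dt a e ≤ dt a p := fun p hp => by
    by_cases hpe : p = e
    · rw [hpe]
    · exact (hXe p hp hpe).le
  have hY' : ∀ q ∈ Y, dt a q ≤ dt a e := fun q hq => by
    by_cases hqe : q = e
    · rw [hqe]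
    · exact (hYe q hq hqe).le
  have hs : ∀ p ∈ X, ∀ q ∈ Y, dt a q < dt a p := by
    intro p hp q hq
    by_cases hpe : p = e
    · have hqe : q ≠ e := by
        rintro rfl
        rw [hpe] at hp
        exact Finset.disjoint_left.1 hdis hp hq
      rw [hpe]
      exact hYe q hq hqe
    · exact lt_of_le_of_lt (hY' q hq) (hXe p hp hpe)
  -- the second functional
  have hcrne : cr a w0 ≠ 0 := by
    intro hcr
    have ha' : a.1 ≠ 0 ∨ a.2 ≠ 0 := by
      by_contra hcon
      push Not at hcon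
      exact ha (Prod.ext hcon.1 hcon.2)
    simp only [dt, cr] at hce h0e hcr
    rcases ha' with h | h
    · have : a.1 * (w0.1 * (e - c).1 + w0.2 * (e - c).2) = 0 := by
        linear_combination w0.1 * hce + (e - c).2 * hcr
      rcases mul_eq_zero.1 this with h' | h'
      · exact h h'
      · linarith
    · have : a.2 * (w0.1 * (e - c).1 + w0.2 * (e - c).2) = 0 := by
        linear_combination w0.2 * hce - (e - c).1 * hcr
      rcases mul_eq_zero.1 this with h' | h'
      · exact h h'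
      · linarith
  obtain ⟨lam, hlam⟩ : ∃ lam, lam = cr a w1 / cr a w0 := ⟨_, rfl⟩
  obtain ⟨mu, hmu⟩ : ∃ mu, mu = cr w1 w0 / cr a w0 := ⟨_, rfl⟩
  have hw1 : ∀ x, dt w1 x = lam * dt w0 x + mu * dt a x := by
    intro x
    rw [hlam, hmu]
    field_simp
    simp only [dt, cr]
    ring
  have hlam0 : 0 < lam := by
    have h2 := hw1 (c - e)
    have h3 : dt a (c - e) = 0 := by
      rw [dt_sub] at hce ⊢
      linarith
    have h4 : 0 < dt w0 (c - e) := by
      rw [dt_sub] at h0e ⊢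
      linarith
    rw [h3, mul_zero, add_zero] at h2
    rw [h2] at h1c
    exact (pos_iff_pos_of_mul_pos h1c).2 h4
  obtain ⟨κ, hκdef⟩ : ∃ κ, κ = -(mu / lam) := ⟨_, rfl⟩
  have hκ : ∀ x, dt w1 x = lam * dt (w0 - κ • a) x := by
    intro x
    rw [hw1, dt_sub_smul, hκdef]
    field_simp
    ring
  have hcY : c ∉ Y := by
    intro h
    have := h0 c (Finset.mem_union_right _ h)
    rw [dt_self_sub] at this
    exact lt_irrefl _ this
  refine zig_end hgp e (X.card + Y.card) a w0 c κ X Y rfl hcrne hXS hYS hcY hcard hs hXe hYe ?_ ?_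
  · intro q hq hqe
    have h2 := h1 q hq hqe
    rw [hκ] at h2
    have h3 := (pos_iff_pos_of_mul_pos h2).1 hlam0
    rw [dt_sub] at h3
    linarith
  · rintro c' d' s ⟨hc', hd', hbr, -, -⟩
    have i1 := h0 c' (Finset.mem_union_left _ hc')
    have i2 := h0 d' (Finset.mem_union_right _ hd')
    rw [dt_sub] at i1 i2
    rw [dt_sub] at hce
    have i3 := hX' c' hc'
    have i4 := hY' d' hd'
    rw [dt_sub_smul, dt_sub_smul] at hbr ⊢
    rcases le_total 0 s with hs0 | hs0
    · have := mul_nonneg hs0 (sub_nonneg.2 i3)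
      nlinarith
    · have := mul_nonneg (neg_nonneg.2 hs0) (sub_nonneg.2 i4)
      nlinarith

end Pool.Agent.AllS
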