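import Pool.Agent.AllS.Cell82
import Pool.Agent.AltHP.Cut

/-! The path of a fold with many corners: cells along a sequence of corners, a last arm, and a
first arm on the other side of the first corner. -/

namespace Pool.Agent.AllS

open Pool.Agent.AltPath Pool.Agent.AltHP

/-- One cell in front of a given arm. -/
theorem cell_step {S R : Finset (ℝ × ℝ)} (hgp : GP S) {a w0 w1 c e : ℝ × ℝ} (ha : a ≠ 0)
    {X Y : Finset (ℝ × ℝ)} (hXS : X ⊆ S) (hYS : Y ⊆ S) (hce : dt a (e - c) = 0)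
    (haX : ∀ q ∈ X, q ≠ e → 0 < dt a (q - c)) (haY : ∀ q ∈ Y, q ≠ e → dt a (q - c) < 0)
    (h0 : ∀ q ∈ X ∪ Y, 0 < dt w0 (q - c)) (h1 : ∀ q ∈ X ∪ Y, q ≠ e → dt w1 (q - e) < 0)
    (h1c : dt w1 (c - e) < 0)
    (hcard : (e ∈ Y ∧ Y.card = X.card + 1) ∨ (e ∈ X ∧ X.card = Y.card)) (hdis : Disjoint X Y)
    {b b' : Bool} (hbX : ∀ q ∈ X, (q ∈ R ↔ b = true)) (hbY : ∀ q ∈ Y, (q ∈ R ↔ b = false))
    (hbe : e ∈ R ↔ b' = true) {l2 : List (ℝ × ℝ)} (hnd2 : (e :: l2).Nodup) (hs2 : Simp e l2)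
    (ha2 : Alt R b' l2) (hw1 : ∀ y ∈ l2, 0 < dt w1 (y - e)) (hw0 : ∀ y ∈ l2, 0 < dt w0 (y - c)) :
    ∃ l : List (ℝ × ℝ), (c :: l).Nodup ∧ (∀ q ∈ l, q ∈ X ∪ Y ∨ q ∈ l2) ∧
      l.length = X.card + Y.card + l2.length ∧ Simp c l ∧ Alt R b l ∧
      ∀ q ∈ l, 0 < dt w0 (q - c) := by
  classical
  obtain ⟨l, g1, g2, g3, g4, g5⟩ := cell82 hgp (w0 := -w0) (w1 := -w1) ha hXS hYS hce haX haY
    (fun q hq => by rw [dt_neg_left]; linarith [h0 q hq])
    (fun q hq hqe => by rw [dt_neg_left]; linarith [h1 q hq hqe])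
    (by rw [dt_neg_left]; linarith) hcard hdis
  have hcl : c ∉ l ++ e :: l2 := by
    intro hc
    have hpos : 0 < dt w0 (c - c) := by
      rcases List.mem_append.1 hc with h | h
      · exact h0 c ((g2 c).1 (List.mem_append_left _ h))
      · rcases List.mem_cons.1 h with h | h
        · have := h0 e ((g2 e).1 (List.mem_append_right _ (List.mem_cons_self ..)))
          rwa [← h] at this
        · exact hw0 c h
    rw [dt_self_sub] at hpos
    exact lt_irrefl _ hpos
  have hel : ∀ x ∈ l, x ≠ e := by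
    intro x hx hxe
    rw [List.nodup_append] at g1
    exact g1.2.2 x hx e (List.mem_cons_self ..) hxe
  have hl1 : ∀ x ∈ l, dt w1 (x - e) < 0 := fun x hx =>
    h1 x ((g2 x).1 (List.mem_append_left _ hx)) (hel x hx)
  refine ⟨l ++ e :: l2, List.nodup_cons.2 ⟨hcl, ?_⟩, ?_, ?_, ?_, ?_, ?_⟩
  · rw [List.nodup_append] at g1 ⊢
    refine ⟨g1.1, hnd2, ?_⟩
    rintro x hx y hy rfl
    rcases List.mem_cons.1 hy with h | h
    · exact hel x hx h
    · have i1 := hl1 x hx
      have i2 := hw1 x h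
      linarith
  · intro q hq
    rcases List.mem_append.1 hq with h | h
    · exact Or.inl ((g2 q).1 (List.mem_append_left _ h))
    · rcases List.mem_cons.1 h with h | h
      · exact Or.inl ((g2 q).1 (h ▸ List.mem_append_right _ (List.mem_cons_self ..)))
      · exact Or.inr h
  · rw [List.length_append] at g3 ⊢
    simp only [List.length_cons, List.length_nil] at g3 ⊢
    omega
  · exact simp_append hs2 hw1 c l (good_simp _ _ g4) h1c hl1
  · exact alt_append ha2 hbe b l (g5 R b hbX hbY)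
  · intro q hq
    rcases List.mem_append.1 hq with h | h
    · exact h0 q ((g2 q).1 (List.mem_append_left _ h))
    · rcases List.mem_cons.1 h with h | h
      · exact h0 q ((g2 q).1 (h ▸ List.mem_append_right _ (List.mem_cons_self ..)))
      · exact hw0 q h

/-- The last arm: from z between two sets of equal size separated by a line through z, both on one
side of another line through z. -/
theorem last_arm {S R : Finset (ℝ × ℝ)} (hgp : GP S) {z w a : ℝ × ℝ} {X Y : Finset (ℝ × ℝ)}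
    (hXS : X ⊆ S) (hYS : Y ⊆ S) (hwX : ∀ q ∈ X, 0 < dt w (q - z))
    (hwY : ∀ q ∈ Y, 0 < dt w (q - z)) (haX : ∀ q ∈ X, 0 < dt a (q - z))
    (haY : ∀ q ∈ Y, dt a (q - z) < 0) (hc : X.card = Y.card) {b : Bool}
    (hbX : ∀ q ∈ X, (q ∈ R ↔ b = true)) (hbY : ∀ q ∈ Y, (q ∈ R ↔ b = false)) :
    ∃ l : List (ℝ × ℝ), (z :: l).Nodup ∧ (∀ q ∈ l, q ∈ X ∪ Y) ∧
      l.length = X.card + Y.card ∧ Simp z l ∧ Alt R b l ∧ ∀ q ∈ l, 0 < dt w (q - z) := by
  classical
  rcases Finset.eq_empty_or_nonempty X with rfl | ⟨x, hx⟩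
  · have hY : Y = ∅ := by
      rw [← Finset.card_eq_zero, ← hc]; simp
    subst hY
    exact ⟨[], by simp, by simp, by simp, trivial, trivial, by simp⟩
  · obtain ⟨y, hy⟩ : Y.Nonempty := by
      rw [← Finset.card_pos, ← hc, Finset.card_pos]
      exact ⟨x, hx⟩
    have hcr : cr a w ≠ 0 := by
      intro h0
      have i1 := hwX x hx
      have i2 := hwY y hy
      have i3 := haX x hx
      have i4 := haY y hy
      obtain ⟨p, hp⟩ : ∃ p, p = x - z := ⟨_, rfl⟩
      obtain ⟨q, hq⟩ : ∃ q, q = y - z := ⟨_, rfl⟩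
      rw [← hp] at i1 i3
      rw [← hq] at i2 i4
      have key : dt a p * dt w q - dt a q * dt w p = cr a w * cr p q := by
        simp only [dt, cr]; ring
      rw [h0, zero_mul] at key
      have j1 := mul_pos i3 i2
      have j2 := mul_neg_of_neg_of_pos i4 i1
      linarith
    obtain ⟨l, g1, g2, g3, g4, g5⟩ := Pool.Agent.HPD66.fan66 hgp z w a X Y hcr hXS hYS hwX hwY
      haX haY hc
    have hall : ∀ q ∈ l, 0 < dt w (q - z) := by
      intro q hq
      rcases Finset.mem_union.1 ((g2 q).1 hq) with h | h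
      · exact hwX q h
      · exact hwY q h
    refine ⟨l, List.nodup_cons.2 ⟨fun hz => ?_, g1⟩, fun q hq => (g2 q).1 hq, g3,
      good_simp _ _ g4, g5 R b hbX hbY, hall⟩
    have := hall z hz
    rw [dt_self_sub] at this
    exact lt_irrefl _ this

/-- **The fold.** Corners c 0, .., c M (blue). The m-th cell (m < M) goes from c m to c (m+1): it
uses the reds A m, which are on the left of c m → c (m+1), and the blues L m, on the right. The last
arm uses the reds A M and the blues L M, on different sides of a line through c M. w m is a line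
through c m with everything later strictly on its positive side and the cell before c m on its
negative side. -/
theorem fold_list {R B : Finset (ℝ × ℝ)} (hdis : Disjoint R B) (hgp : GP (R ∪ B)) (aM : ℝ × ℝ)
    (M : ℕ) (c w : ℕ → ℝ × ℝ) (A L : ℕ → Finset (ℝ × ℝ)) (hc : ∀ m ≤ M, c m ∈ B)
    (hA : ∀ m ≤ M, A m ⊆ R) (hL : ∀ m ≤ M, L m ⊆ B)
    (hcard : ∀ m < M, (A m).card = (L m).card + 1) (hcardM : (A M).card = (L M).card)
    (hAs : ∀ m < M, ∀ x ∈ A m, 0 < cr (c (m + 1) - c m) (x - c m))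
    (hLs : ∀ m < M, ∀ x ∈ L m, cr (c (m + 1) - c m) (x - c m) < 0)
    (hAM : ∀ x ∈ A M, 0 < dt aM (x - c M)) (hLM : ∀ x ∈ L M, dt aM (x - c M) < 0)
    (hw : ∀ m j, m ≤ j → j ≤ M → ∀ x ∈ A j ∪ L j, 0 < dt (w m) (x - c m))
    (hcw : ∀ m j, m < j → j ≤ M → 0 < dt (w m) (c j - c m))
    (hw' : ∀ m < M, ∀ x ∈ A m ∪ L m, dt (w (m + 1)) (x - c (m + 1)) < 0)
    (hcw' : ∀ m < M, dt (w (m + 1)) (c m - c (m + 1)) < 0) :
    ∀ k ≤ M, ∃ l : List (ℝ × ℝ), (c (M - k) :: l).Nodup ∧
      (∀ x ∈ l, (∃ j, M - k ≤ j ∧ j ≤ M ∧ x ∈ A j ∪ L j) ∨ ∃ j, M - k < j ∧ j ≤ M ∧ x = c j) ∧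
      l.length = 2 * ∑ j ∈ Finset.Icc (M - k) M, (A j).card ∧
      Simp (c (M - k)) l ∧ Alt R false l := by
  classical
  have hRf : ∀ q ∈ B, (q ∈ R ↔ false = true) := fun q hq =>
    ⟨fun h => absurd hq (Finset.disjoint_left.1 hdis h), fun h => by cases h⟩
  have hRt : ∀ q ∈ R, (q ∈ R ↔ false = false) := fun q hq => ⟨fun _ => rfl, fun _ => hq⟩
  intro k
  induction k with
  | zero =>
    intro _
    obtain ⟨l, g1, g2, g3, g4, g5, g6⟩ := last_arm (R := R) hgp (z := c M) (w := w M) (a := -aM)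
      (X := L M) (Y := A M) ((hL M le_rfl).trans Finset.subset_union_right)
      ((hA M le_rfl).trans Finset.subset_union_left)
      (fun q hq => hw M M le_rfl le_rfl q (Finset.mem_union_right _ hq))
      (fun q hq => hw M M le_rfl le_rfl q (Finset.mem_union_left _ hq))
      (fun q hq => by rw [dt_neg_left]; linarith [hLM q hq])
      (fun q hq => by rw [dt_neg_left]; linarith [hAM q hq]) hcardM.symm (b := false)
      (fun q hq => hRf q (hL M le_rfl hq)) (fun q hq => hRt q (hA M le_rfl hq))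
    refine ⟨l, g1, fun x hx => Or.inl ⟨M, le_rfl, le_rfl, ?_⟩, ?_, g4, g5⟩
    · rw [Finset.union_comm]
      exact g2 x hx
    · rw [g3, Nat.sub_zero, Finset.Icc_self, Finset.sum_singleton]
      omega
  | succ k ih =>
    intro hk
    obtain ⟨l2, g1, g2, g3, g4, g5⟩ := ih (by omega)
    obtain ⟨m, hm⟩ : ∃ m, m = M - (k + 1) := ⟨_, rfl⟩
    have hm1 : M - k = m + 1 := by omega
    have hmM : m < M := by omega
    rw [hm1] at g1 g2 g3 g4
    rw [← hm]
    obtain ⟨d, hd⟩ : ∃ d, d = c (m + 1) - c m := ⟨_, rfl⟩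
    have hpos := hcw m (m + 1) (by omega) (by omega)
    have hd0 : ((d.2, -d.1) : ℝ × ℝ) ≠ 0 := by
      intro h0
      have e1 : d.2 = 0 := congrArg Prod.fst h0
      have e2 : -d.1 = 0 := congrArg Prod.snd h0
      rw [← hd] at hpos
      simp only [dt] at hpos
      rw [e1, show d.1 = 0 by linarith] at hpos
      simp at hpos
    have hdt : ∀ x : ℝ × ℝ, dt ((d.2, -d.1) : ℝ × ℝ) x = -cr d x := by
      intro x
      simp only [dt, cr]; ring
    have heL : c (m + 1) ∉ L m := by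
      intro h
      have := hw' m hmM _ (Finset.mem_union_right _ h)
      rw [dt_self_sub] at this
      exact lt_irrefl _ this
    have hlater : ∀ y ∈ l2, 0 < dt (w (m + 1)) (y - c (m + 1)) ∧ 0 < dt (w m) (y - c m) := by
      intro y hy
      rcases g2 y hy with ⟨j, hj, hjM, hyj⟩ | ⟨j, hj, hjM, rfl⟩
      · exact ⟨hw (m + 1) j hj hjM y hyj, hw m j (by omega) hjM y hyj⟩
      · exact ⟨hcw (m + 1) j hj hjM, hcw m j (by omega) hjM⟩
    have hXY : ∀ q ∈ insert (c (m + 1)) (L m) ∪ A m, q = c (m + 1) ∨ q ∈ A m ∪ L m := by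
      intro q hq
      rcases Finset.mem_union.1 hq with h | h
      · rcases Finset.mem_insert.1 h with h | h
        · exact Or.inl h
        · exact Or.inr (Finset.mem_union_right _ h)
      · exact Or.inr (Finset.mem_union_left _ h)
    obtain ⟨l, f1, f2, f3, f4, f5, f6⟩ := cell_step (R := R) hgp (a := (d.2, -d.1)) (w0 := w m)
      (w1 := w (m + 1)) (c := c m) (e := c (m + 1)) hd0 (X := insert (c (m + 1)) (L m)) (Y := A m)
      (Finset.insert_subset (Finset.mem_union_right _ (hc (m + 1) (by omega)))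
        ((hL m hmM.le).trans Finset.subset_union_right))
      ((hA m hmM.le).trans Finset.subset_union_left)
      (by
        rw [hdt, ← hd]
        simp only [cr]; ring)
      (fun q hq hqe => by
        rw [hdt, hd]
        have := hLs m hmM q ((Finset.mem_insert.1 hq).resolve_left hqe)
        linarith)
      (fun q hq _ => by
        rw [hdt, hd]
        have := hAs m hmM q hq
        linarith)
      (fun q hq => by
        rcases hXY q hq with h | h
        · rw [h]; exact hpos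
        · exact hw m m le_rfl hmM.le q h)
      (fun q hq hqe => hw' m hmM q ((hXY q hq).resolve_left hqe)) (hcw' m hmM)
      (Or.inr ⟨Finset.mem_insert_self .., by
        rw [Finset.card_insert_of_notMem heL, hcard m hmM]⟩)
      (by
        rw [Finset.disjoint_left]
        intro q hq hq'
        have h1 := hA m hmM.le hq'
        rcases Finset.mem_insert.1 hq with h | h
        · rw [h] at h1
          exact Finset.disjoint_left.1 hdis h1 (hc (m + 1) (by omega))
        · exact Finset.disjoint_left.1 hdis h1 (hL m hmM.le h))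
      (b := false) (b' := false)
      (fun q hq => by
        rcases Finset.mem_insert.1 hq with h | h
        · rw [h]; exact hRf _ (hc (m + 1) (by omega))
        · exact hRf q (hL m hmM.le h))
      (fun q hq => hRt q (hA m hmM.le hq)) (hRf _ (hc (m + 1) (by omega))) g1 g4 g5
      (fun y hy => (hlater y hy).1) (fun y hy => (hlater y hy).2)
    refine ⟨l, f1, fun x hx => ?_, ?_, f4, f5⟩
    · rcases f2 x hx with h | h
      · rcases hXY x h with h | h
        · exact Or.inr ⟨m + 1, by omega, by omega, h⟩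
        · exact Or.inl ⟨m, le_rfl, hmM.le, h⟩
      · rcases g2 x h with ⟨j, hj, hjM, hyj⟩ | ⟨j, hj, hjM, hyj⟩
        · exact Or.inl ⟨j, by omega, hjM, hyj⟩
        · exact Or.inr ⟨j, by omega, hjM, hyj⟩
    · rw [f3, g3, Finset.card_insert_of_notMem heL, ← hcard m hmM]
      have e1 : Finset.Icc m M = insert m (Finset.Icc (m + 1) M) := by
        ext j
        simp only [Finset.mem_Icc, Finset.mem_insert]
        omega
      rw [e1, Finset.sum_insert (by simp)]
      ring

/-- **The path of a fold**, with the first arm on the other side of the first corner. -/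
theorem fold_path {R B : Finset (ℝ × ℝ)} (hdis : Disjoint R B) (hgp : GP (R ∪ B)) (aM : ℝ × ℝ)
    (M : ℕ) (c w : ℕ → ℝ × ℝ) (A L : ℕ → Finset (ℝ × ℝ)) (hc : ∀ m ≤ M, c m ∈ B)
    (hA : ∀ m ≤ M, A m ⊆ R) (hL : ∀ m ≤ M, L m ⊆ B)
    (hcard : ∀ m < M, (A m).card = (L m).card + 1) (hcardM : (A M).card = (L M).card)
    (hAs : ∀ m < M, ∀ x ∈ A m, 0 < cr (c (m + 1) - c m) (x - c m))
    (hLs : ∀ m < M, ∀ x ∈ L m, cr (c (m + 1) - c m) (x - c m) < 0)
    (hAM : ∀ x ∈ A M, 0 < dt aM (x - c M)) (hLM : ∀ x ∈ L M, dt aM (x - c M) < 0)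
    (hw : ∀ m j, m ≤ j → j ≤ M → ∀ x ∈ A j ∪ L j, 0 < dt (w m) (x - c m))
    (hcw : ∀ m j, m < j → j ≤ M → 0 < dt (w m) (c j - c m))
    (hw' : ∀ m < M, ∀ x ∈ A m ∪ L m, dt (w (m + 1)) (x - c (m + 1)) < 0)
    (hcw' : ∀ m < M, dt (w (m + 1)) (c m - c (m + 1)) < 0)
    {R1 B1 : Finset (ℝ × ℝ)} (hR1 : R1 ⊆ R) (hB1 : B1 ⊆ B)
    (hleft : ∀ x ∈ R1 ∪ B1, dt (w 0) (x - c 0) < 0) {j : ℕ} (hjR : j ≤ R1.card)
    (hjB : j ≤ B1.card) :
    HasPath R B (2 * ∑ m ∈ Finset.range (M + 1), (A m).card + j + 1) := by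
  classical
  obtain ⟨l, g1, g2, g3, g4, g5⟩ := fold_list hdis hgp aM M c w A L hc hA hL hcard hcardM hAs hLs
    hAM hLM hw hcw hw' hcw' M le_rfl
  rw [Nat.sub_self] at g1 g2 g3 g4
  have hc0 : c 0 ∈ B := hc 0 (Nat.zero_le _)
  have hsub : insert (c 0) (R1 ∪ B1) ⊆ R ∪ B :=
    Finset.insert_subset (Finset.mem_union_right _ hc0) (Finset.union_subset_union hR1 hB1)
  obtain ⟨l1, f1, f2, f3, f4, f5⟩ := cut (c 0) (-w 0) (R1 ∪ B1) R1 B1 (hgp.mono hsub)
    (fun q hq => by rw [dt_neg_left]; linarith [hleft q hq]) Finset.subset_union_left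
    Finset.subset_union_right (Finset.disjoint_of_subset_left hR1
      (Finset.disjoint_of_subset_right hB1 hdis)) j hjR hjB
  have hf5 : Alt R false l1 := f5 R false (fun q hq => ⟨fun _ => rfl, fun _ => hR1 hq⟩)
    (fun q hq => ⟨fun h => absurd (hB1 hq) (Finset.disjoint_left.1 hdis h), fun h => by cases h⟩)
  have hpath := hasPath_two_simp hdis (z := c 0) (w := w 0) (l1 := l1) (l2 := l)
    (Finset.mem_union_right _ hc0)
    (fun q hq => (Finset.insert_subset_iff.1 hsub).2 (f2 q hq))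
    (fun x hx => by
      rcases g2 x hx with ⟨i, -, hi, h⟩ | ⟨i, -, hi, rfl⟩
      · exact Finset.union_subset_union (hA i hi) (hL i hi) h
      · exact Finset.mem_union_right _ (hc i hi))
    f1 g1 (good_simp _ _ f3) g4 false
    ⟨fun h => absurd hc0 (Finset.disjoint_left.1 hdis h), fun h => by cases h⟩ hf5 g5
    (fun q hq => (hleft q (f2 q hq)).le)
    (fun x hx => by
      rcases g2 x hx with ⟨i, h0, hi, h⟩ | ⟨i, h0, hi, rfl⟩
      · exact hw 0 i h0 hi x h
      · exact hcw 0 i h0 hi)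
  refine HasPath.mono hpath ?_
  have e1 : Finset.Icc 0 M = Finset.range (M + 1) := by
    ext i
    simp only [Finset.mem_Icc, Finset.mem_range]
    omega
  rw [g3, e1]
  omega

end Pool.Agent.AllS
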