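import Pool.Agent.AltHP.Arms
import Pool.Agent.AltHP.Tangent

/-! Simple polygonal lines given by lists, their concatenation at a corner with a separating line,
and two arms at a common point (paths of several pieces). -/

namespace Pool.Agent.AllS

open Pool.Agent.AltPath Pool.Agent.AltHP

/-- The polygonal line from p through the points of the list. -/
def Tr : ℝ × ℝ → List (ℝ × ℝ) → Set (ℝ × ℝ)
  | p, [] => {p}
  | p, q :: l => segment ℝ p q ∪ Tr q l

/-- The polygonal line from p through the points of the list is simple: the first edge meets the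
rest only in its end. -/
def Simp : ℝ × ℝ → List (ℝ × ℝ) → Prop
  | _, [] => True
  | p, q :: l => (∀ z ∈ segment ℝ p q, z ∈ Tr q l → z = q) ∧ Simp q l

theorem Tr.start : ∀ (p : ℝ × ℝ) (l : List (ℝ × ℝ)), p ∈ Tr p l
  | _, [] => rfl
  | p, q :: _ => Or.inl (left_mem_segment ℝ p q)

theorem Tr.mem : ∀ (p : ℝ × ℝ) (l : List (ℝ × ℝ)) (x : ℝ × ℝ), x ∈ l → x ∈ Tr p l
  | _, [], _, h => absurd h List.not_mem_nil
  | _, q :: l, x, h => by
    rcases List.mem_cons.1 h with rfl | h
    · exact Or.inr (Tr.start _ l)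
    · exact Or.inr (Tr.mem q l x h)

/-- A segment on one closed side of a line through c. -/
theorem seg_side {b c x y z : ℝ × ℝ} (hx : 0 ≤ dt b (x - c)) (hx' : dt b (x - c) = 0 → x = c)
    (hy : 0 ≤ dt b (y - c)) (hy' : dt b (y - c) = 0 → y = c) (hz : z ∈ segment ℝ x y) :
    0 ≤ dt b (z - c) ∧ (dt b (z - c) = 0 → z = c) := by
  obtain ⟨s, t, hs, ht, hst, hzz, e⟩ := dt_segment (a := b) (g := c) hz
  have h1 := mul_nonneg hs hx
  have h2 := mul_nonneg ht hy
  refine ⟨by rw [e]; linarith, fun h0 => ?_⟩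
  rw [e] at h0
  have e1 : s * dt b (x - c) = 0 := by linarith
  have e2 : t * dt b (y - c) = 0 := by linarith
  rcases mul_eq_zero.1 e1 with hs0 | hx0
  · have ht1 : t = 1 := by linarith
    rw [ht1, one_mul] at e2
    rw [hzz, hs0, ht1, zero_smul, one_smul, zero_add]
    exact hy' e2
  · have hxc := hx' hx0
    rcases mul_eq_zero.1 e2 with ht0 | hy0
    · have hs1 : s = 1 := by linarith
      rw [hzz, hs1, ht0, zero_smul, one_smul, add_zero]
      exact hxc
    · have hyc := hy' hy0
      rw [hzz, hxc, hyc, ← add_smul, hst, one_smul]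

/-- A polygonal line on one closed side of a line through c. -/
theorem Tr.side {b c : ℝ × ℝ} : ∀ (p : ℝ × ℝ) (l : List (ℝ × ℝ)),
    (0 ≤ dt b (p - c) ∧ (dt b (p - c) = 0 → p = c)) →
    (∀ x ∈ l, 0 ≤ dt b (x - c) ∧ (dt b (x - c) = 0 → x = c)) →
    ∀ z ∈ Tr p l, 0 ≤ dt b (z - c) ∧ (dt b (z - c) = 0 → z = c)
  | p, [], hp, _, z, hz => by
    rw [Set.mem_singleton_iff.1 hz]
    exact hp
  | p, q :: l, hp, h, z, hz => by
    have hq := h q (List.mem_cons_self ..)
    rcases hz with hz | hz
    · exact seg_side hp.1 hp.2 hq.1 hq.2 hz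
    · exact Tr.side q l hq (fun x hx => h x (List.mem_cons_of_mem _ hx)) z hz

/-- Good lists are simple. -/
theorem good_simp : ∀ (p : ℝ × ℝ) (l : List (ℝ × ℝ)), Good p l → Simp p l
  | _, [], _ => trivial
  | p, q :: l, ⟨⟨a, ha, hl⟩, hg⟩ => by
    refine ⟨fun z hz hz' => ?_, good_simp q l hg⟩
    obtain ⟨s, t, hs, ht, hst, -, e⟩ := dt_segment (a := a) (g := q) hz
    rw [dt_self_sub, mul_zero, add_zero] at e
    have h1 := mul_nonneg hs (neg_nonneg.2 ha.le)
    have h2 := Tr.side (b := a) (c := q) q l ⟨by rw [dt_self_sub], fun _ => rfl⟩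
      (fun x hx => ⟨(hl x hx).le, fun h0 => absurd h0 (hl x hx).ne'⟩) z hz'
    exact h2.2 (le_antisymm (by linarith) h2.1)

theorem tr_append (c : ℝ × ℝ) (l2 : List (ℝ × ℝ)) : ∀ (p : ℝ × ℝ) (l1 : List (ℝ × ℝ)),
    Tr p (l1 ++ c :: l2) = Tr p (l1 ++ [c]) ∪ Tr c l2
  | p, [] => by
    simp only [List.nil_append, Tr]
    rw [Set.union_assoc]
    congr 1
    refine (Set.union_eq_self_of_subset_left ?_).symm
    rw [Set.singleton_subset_iff]
    exact Tr.start c l2
  | p, q :: l1 => by
    simp only [List.cons_append, Tr]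
    rw [tr_append c l2 q l1, Set.union_assoc]

/-- Concatenation at a corner c: the first piece is on the closed left (strictly except for c) of a
line through c, the second piece strictly on the right. -/
theorem simp_append {b c : ℝ × ℝ} {l2 : List (ℝ × ℝ)} (h2 : Simp c l2)
    (hb2 : ∀ y ∈ l2, 0 < dt b (y - c)) : ∀ (p : ℝ × ℝ) (l1 : List (ℝ × ℝ)),
    Simp p (l1 ++ [c]) → dt b (p - c) < 0 → (∀ x ∈ l1, dt b (x - c) < 0) →
    Simp p (l1 ++ c :: l2)
  | p, [], h1, hp, _ => by
    refine ⟨fun z hz hz' => ?_, h2⟩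
    obtain ⟨s, t, hs, ht, hst, -, e⟩ := dt_segment (a := b) (g := c) hz
    rw [dt_self_sub, mul_zero, add_zero] at e
    have h3 := mul_nonneg hs (neg_nonneg.2 hp.le)
    have h4 := Tr.side (b := b) (c := c) c l2 ⟨by rw [dt_self_sub], fun _ => rfl⟩
      (fun x hx => ⟨(hb2 x hx).le, fun h0 => absurd h0 (hb2 x hx).ne'⟩) z hz'
    exact h4.2 (le_antisymm (by linarith) h4.1)
  | p, q :: l1, h1, hp, hb1 => by
    have hq := hb1 q (List.mem_cons_self ..)
    refine ⟨fun z hz hz' => ?_, simp_append h2 hb2 q l1 h1.2 hq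
      fun x hx => hb1 x (List.mem_cons_of_mem _ hx)⟩
    rw [show l1.append (c :: l2) = l1 ++ c :: l2 from rfl, tr_append] at hz'
    rcases hz' with hz' | hz'
    · exact h1.1 z hz hz'
    · obtain ⟨s, t, hs, ht, hst, -, e⟩ := dt_segment (a := b) (g := c) hz
      have h3 := mul_nonneg hs (neg_nonneg.2 hp.le)
      have h5 := mul_nonneg ht (neg_nonneg.2 hq.le)
      have h4 := Tr.side (b := b) (c := c) c l2 ⟨by rw [dt_self_sub], fun _ => rfl⟩
        (fun x hx => ⟨(hb2 x hx).le, fun h0 => absurd h0 (hb2 x hx).ne'⟩) z hz'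
      have h6 : z = c := h4.2 (le_antisymm (by linarith) h4.1)
      exact h1.1 z hz (h6 ▸ Tr.mem q (l1 ++ [c]) c (List.mem_append_right _ (List.mem_cons_self ..)))

theorem alt_append {S : Finset (ℝ × ℝ)} {c : ℝ × ℝ} {l2 : List (ℝ × ℝ)} {b' : Bool}
    (h2 : Alt S b' l2) (hc : c ∈ S ↔ b' = true) : ∀ (b : Bool) (l1 : List (ℝ × ℝ)),
    Alt S b (l1 ++ [c]) → Alt S b (l1 ++ c :: l2)
  | b, [], h1 => by
    have h3 := h1.1
    have h4 : (!b) = b' := by
      cases b <;> cases b' <;> simp_all
    exact ⟨h3, h4 ▸ h2⟩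
  | b, q :: l1, h1 => ⟨h1.1, alt_append h2 hc (!b) l1 h1.2⟩

theorem simp_get (d : ℝ × ℝ) : ∀ (l : List (ℝ × ℝ)) (p : ℝ × ℝ), Simp p l → ∀ i j, i < j →
    j < l.length → ∀ z ∈ segment ℝ ((p :: l).getD i d) ((p :: l).getD (i + 1) d),
    z ∈ segment ℝ ((p :: l).getD j d) ((p :: l).getD (j + 1) d) → z = (p :: l).getD (i + 1) d
  | [], _, _, i, j, _, hj => absurd hj (Nat.not_lt_zero j)
  | q :: l, p, h, 0, j, hij, hj => by
    intro z hz hz'
    obtain ⟨j', rfl⟩ : ∃ j', j = j' + 1 := ⟨j - 1, by omega⟩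
    have e1 : (p :: q :: l).getD (0 + 1) d = q := by simp
    have e0 : (p :: q :: l).getD 0 d = p := by simp
    rw [e0, e1] at hz
    rw [e1]
    refine h.1 z hz ?_
    rw [List.getD_cons_succ, List.getD_cons_succ] at hz'
    have key : ∀ (l : List (ℝ × ℝ)) (q : ℝ × ℝ) (j : ℕ), j < l.length →
        segment ℝ ((q :: l).getD j d) ((q :: l).getD (j + 1) d) ⊆ Tr q l := by
      intro l
      induction l with
      | nil => intro q j hj; exact absurd hj (Nat.not_lt_zero j)
      | cons r l ih =>
        intro q j hj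
        rcases j with _ | j
        · have e2 : (q :: r :: l).getD (0 + 1) d = r := by simp
          have e3 : (q :: r :: l).getD 0 d = q := by simp
          rw [e2, e3]
          exact Set.subset_union_left
        · rw [List.getD_cons_succ, List.getD_cons_succ]
          exact (ih r j (by simp only [List.length_cons] at hj; omega)).trans
            Set.subset_union_right
    exact key l q j' (by simp only [List.length_cons] at hj; omega) hz'
  | q :: l, p, h, i + 1, j, hij, hj => by
    obtain ⟨j', rfl⟩ : ∃ j', j = j' + 1 := ⟨j - 1, by omega⟩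
    rw [List.getD_cons_succ, List.getD_cons_succ, List.getD_cons_succ, List.getD_cons_succ]
    exact simp_get d l q h.2 i j' (by omega) (by simp only [List.length_cons] at hj; omega)

theorem svtx_disj {p : ℝ × ℝ} {l : List (ℝ × ℝ)} (h : Simp p l) (hnd : (p :: l).Nodup) {i j : ℕ}
    (hij : i + 1 < j) (hj : j + 1 ≤ l.length) :
    Disjoint (segment ℝ (vtx p l i) (vtx p l (i + 1))) (segment ℝ (vtx p l j) (vtx p l (j + 1))) := by
  rw [Set.disjoint_left]
  intro z hz hz'
  have h1 : z = vtx p l (i + 1) := simp_get p l p h i j (by omega) (by omega) z hz hz'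
  have h2 : z = vtx p l (i + 2) := simp_get p l p h (i + 1) j (by omega) (by omega) z
    (by rw [h1]; exact left_mem_segment ℝ _ _) hz'
  have := vtx_inj hnd (by omega) (by omega) (h1.symm.trans h2)
  omega

theorem svtx_meet {p : ℝ × ℝ} {l : List (ℝ × ℝ)} (h : Simp p l) {i : ℕ} (hi : i + 2 ≤ l.length) :
    segment ℝ (vtx p l i) (vtx p l (i + 1)) ∩ segment ℝ (vtx p l (i + 1)) (vtx p l (i + 2)) =
      {vtx p l (i + 1)} := by
  apply Set.eq_singleton_iff_unique_mem.mpr
  refine ⟨⟨right_mem_segment ℝ _ _, left_mem_segment ℝ _ _⟩, ?_⟩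
  rintro z ⟨hz, hz'⟩
  exact simp_get p l p h i (i + 1) (by omega) (by omega) z hz hz'

/-- The common point is not on the later edges of an arm. -/
theorem svtx_notMem {p : ℝ × ℝ} {l : List (ℝ × ℝ)} (h : Simp p l) (hnd : (p :: l).Nodup) {j : ℕ}
    (hj0 : 0 < j) (hj : j + 1 ≤ l.length) : p ∉ segment ℝ (vtx p l j) (vtx p l (j + 1)) := by
  intro hz
  have h1 : p = vtx p l 1 := simp_get p l p h 0 j (by omega) (by omega) p
    (by
      have e : (p :: l).getD 0 p = p := by simp
      rw [e]
      exact left_mem_segment ℝ _ _) hz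
  have h2 : vtx p l 0 = vtx p l 1 := by rw [vtx_zero]; exact h1
  have := vtx_inj hnd (by omega) (by omega) h2
  omega

/-- Two simple arms at z on the two sides of a line through z. -/
theorem hasPath_two_simp {R B : Finset (ℝ × ℝ)} (hdis : Disjoint R B) {z w : ℝ × ℝ}
    {l1 l2 : List (ℝ × ℝ)} (hz : z ∈ R ∪ B) (h1 : ∀ q ∈ l1, q ∈ R ∪ B) (h2 : ∀ q ∈ l2, q ∈ R ∪ B)
    (nd1 : (z :: l1).Nodup) (nd2 : (z :: l2).Nodup) (g1 : Simp z l1) (g2 : Simp z l2) (b : Bool)
    (hb : z ∈ R ↔ b = true) (a1 : Alt R b l1) (a2 : Alt R b l2)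
    (s1 : ∀ q ∈ l1, dt w (q - z) ≤ 0) (s2 : ∀ q ∈ l2, 0 < dt w (q - z)) :
    HasPath R B (l1.length + l2.length + 1) := by
  classical
  obtain ⟨m, hm⟩ : ∃ m, m = l2.length := ⟨_, rfl⟩
  obtain ⟨m1, hm1⟩ : ∃ m1, m1 = l1.length := ⟨_, rfl⟩
  -- the vertices
  obtain ⟨v, hv⟩ : ∃ v : ℕ → ℝ × ℝ, ∀ i, v i = if i ≤ m then vtx z l2 (m - i) else vtx z l1 (i - m) :=
    ⟨_, fun _ => rfl⟩
  have vle : ∀ i, i ≤ m → v i = vtx z l2 (m - i) := fun i hi => by rw [hv, if_pos hi]
  have vge : ∀ i, m ≤ i → v i = vtx z l1 (i - m) := by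
    intro i hi
    rcases Nat.eq_or_lt_of_le hi with h | h
    · rw [hv, if_pos h.ge, ← h, Nat.sub_self, vtx_zero, vtx_zero]
    · rw [hv, if_neg (by omega)]
  have c1 : ∀ j, j ≤ m1 → vtx z l1 j ∈ R ∪ B := by
    intro j hj
    rcases Nat.eq_zero_or_pos j with rfl | h
    · rw [vtx_zero]; exact hz
    · exact h1 _ (vtx_mem h (by omega))
  have c2 : ∀ j, j ≤ m → vtx z l2 j ∈ R ∪ B := by
    intro j hj
    rcases Nat.eq_zero_or_pos j with rfl | h
    · rw [vtx_zero]; exact hz
    · exact h2 _ (vtx_mem h (by omega))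
  have d1 : ∀ j, j ≤ m1 → dt w (vtx z l1 j - z) ≤ 0 := by
    intro j hj
    rcases Nat.eq_zero_or_pos j with rfl | h
    · rw [vtx_zero]; exact (dt_self_sub _ _).le
    · exact s1 _ (vtx_mem h (by omega))
  have d2 : ∀ j, 0 < j → j ≤ m → 0 < dt w (vtx z l2 j - z) :=
    fun j hj0 hj => s2 _ (vtx_mem hj0 (by omega))
  have hcol : ∀ q, q ∈ R ∪ B → (q ∉ R ↔ q ∈ B) := by
    intro q hq
    constructor
    · intro h
      exact (Finset.mem_union.mp hq).resolve_left h
    · intro h h'
      exact Finset.disjoint_left.mp hdis h' h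
  have hmem : ∀ i, i < m1 + m + 1 → v i ∈ R ∪ B := by
    intro i hi
    rcases Nat.le_total i m with h | h
    · rw [vle i h]; exact c2 _ (by omega)
    · rw [vge i h]; exact c1 _ (by omega)
  rw [← hm, ← hm1]
  refine ⟨v, hmem, ?_, ?_, ?_, ?_⟩
  · -- distinct vertices
    have cross : ∀ i j, i < m → m ≤ j → j < m1 + m + 1 → v i ≠ v j := by
      intro i j hi hj hj' h
      rw [vle i hi.le, vge j hj] at h
      have t1 := d2 (m - i) (by omega) (by omega)
      have t2 := d1 (j - m) (by omega)
      rw [h] at t1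
      linarith
    intro i j hi hj hij
    rcases Nat.lt_or_ge i m with h | h <;> rcases Nat.lt_or_ge j m with h' | h'
    · rw [vle i h.le, vle j h'.le] at hij
      have := vtx_inj nd2 (by omega) (by omega) hij
      omega
    · exact (cross i j h h' hj hij).elim
    · exact (cross j i h' h hi hij.symm).elim
    · rw [vge i h, vge j h'] at hij
      have := vtx_inj nd1 (by omega) (by omega) hij
      omega
  · -- colours
    intro i hi
    have key : v i ∈ R ↔ v (i + 1) ∉ R := by
      rcases Nat.lt_or_ge i m with h | h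
      · rw [vle i h.le, vle (i + 1) (by omega)]
        have := Alt.get z R l2 z b a2 hb (m - (i + 1)) (by omega)
        have e : m - i = m - (i + 1) + 1 := by omega
        rw [e]
        change vtx z l2 (m - (i + 1)) ∈ R ↔ vtx z l2 (m - (i + 1) + 1) ∉ R at this
        tauto
      · rw [vge i h, vge (i + 1) (by omega)]
        have := Alt.get z R l1 z b a1 hb (i - m) (by omega)
        have e : i + 1 - m = i - m + 1 := by omega
        rw [e]
        exact this
    rw [key]
    exact hcol _ (hmem (i + 1) (by omega))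
  · -- disjoint edges
    intro i j hj hij
    rcases Nat.lt_or_ge i m with h | h
    · rcases Nat.lt_or_ge j m with h' | h'
      · rw [vle i h.le, vle (i + 1) (by omega), vle j h'.le, vle (j + 1) (by omega)]
        have e1 : m - i = m - (i + 1) + 1 := by omega
        have e2 : m - j = m - (j + 1) + 1 := by omega
        rw [e1, e2]
        have := svtx_disj g2 nd2 (i := m - (j + 1)) (j := m - (i + 1)) (by omega) (by omega)
        rw [segment_symm ℝ (vtx z l2 (m - (i + 1) + 1)), segment_symm ℝ (vtx z l2 (m - (j + 1) + 1))]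
        exact this.symm
      · rw [vle i h.le, vle (i + 1) (by omega), vge j h', vge (j + 1) (by omega)]
        have e1 : j + 1 - m = j - m + 1 := by omega
        rw [e1]
        rcases Nat.lt_or_ge (i + 1) m with h'' | h''
        · exact (seg_disj (d1 (j - m) (by omega)) (d1 (j - m + 1) (by omega))
            (d2 (m - i) (by omega) (by omega)) (d2 (m - (i + 1)) (by omega) (by omega))).symm
        · have e2 : m - (i + 1) = 0 := by omega
          rw [e2, vtx_zero]
          rw [Set.disjoint_left]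
          intro x hx1 hx2
          have hxz : x ∈ ({z} : Set (ℝ × ℝ)) := by
            obtain ⟨s, t, hs, ht, hst, hx, e3⟩ := dt_segment (a := w) (g := z) hx1
            obtain ⟨s', t', hs', ht', hst', -, e4⟩ := dt_segment (a := w) (g := z) hx2
            have t1 := d1 (j - m) (by omega)
            have t2 := d1 (j - m + 1) (by omega)
            have t3 := d2 (m - i) (by omega) (by omega)
            rw [dt_self_sub] at e3
            have t4 : dt w (x - z) ≤ 0 := by
              rw [e4]
              have := mul_nonpos_of_nonneg_of_nonpos hs' t1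
              have := mul_nonpos_of_nonneg_of_nonpos ht' t2
              linarith
            have t5 : s * dt w (vtx z l2 (m - i) - z) ≤ 0 := by linarith
            have t6 : s = 0 := by
              by_contra hne
              have : 0 < s := lt_of_le_of_ne hs (Ne.symm hne)
              have := mul_pos this t3
              linarith
            have t7 : t = 1 := by linarith
            rw [hx, t6, t7, one_smul, zero_smul, zero_add]
            exact Set.mem_singleton z
          rw [Set.mem_singleton_iff] at hxz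
          rw [hxz] at hx2
          exact svtx_notMem g1 nd1 (j := j - m) (by omega) (by omega) hx2
    · rw [vge i h, vge (i + 1) (by omega), vge j (by omega), vge (j + 1) (by omega)]
      have e1 : i + 1 - m = i - m + 1 := by omega
      have e2 : j + 1 - m = j - m + 1 := by omega
      rw [e1, e2]
      exact svtx_disj g1 nd1 (by omega) (by omega)
  · -- consecutive edges
    intro i hi
    rcases Nat.lt_or_ge i m with h | h
    · rcases Nat.lt_or_ge (i + 1) m with h' | h'
      · rw [vle i h.le, vle (i + 1) (by omega), vle (i + 2) (by omega)]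
        have e1 : m - i = m - (i + 2) + 2 := by omega
        have e2 : m - (i + 1) = m - (i + 2) + 1 := by omega
        rw [e1, e2]
        have := svtx_meet g2 (i := m - (i + 2)) (by omega)
        rw [segment_symm ℝ (vtx z l2 (m - (i + 2) + 2)), segment_symm ℝ (vtx z l2 (m - (i + 2) + 1))
          (vtx z l2 (m - (i + 2))), Set.inter_comm]
        exact this
      · have e0 : m - (i + 1) = 0 := by omega
        have e1 : i + 2 - m = 1 := by omega
        rw [vle i h.le, vle (i + 1) (by omega), vge (i + 2) (by omega), e0, vtx_zero, e1]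
        have := seg_meet (d1 1 (by omega)) (d2 (m - i) (by omega) (by omega))
        rw [segment_symm ℝ (vtx z l2 (m - i)), segment_symm ℝ z (vtx z l1 1), Set.inter_comm]
        exact this
    · rw [vge i h, vge (i + 1) (by omega), vge (i + 2) (by omega)]
      have e1 : i + 1 - m = i - m + 1 := by omega
      have e2 : i + 2 - m = i - m + 2 := by omega
      rw [e1, e2]
      exact svtx_meet g1 (by omega)

/-- One simple list. -/
theorem hasPath_simp {R B : Finset (ℝ × ℝ)} (hdis : Disjoint R B) {z : ℝ × ℝ}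
    {l : List (ℝ × ℝ)} (hz : z ∈ R ∪ B) (h : ∀ q ∈ l, q ∈ R ∪ B)
    (nd : (z :: l).Nodup) (g : Simp z l) (b : Bool) (hb : z ∈ R ↔ b = true) (a : Alt R b l) :
    HasPath R B (l.length + 1) := by
  have := hasPath_two_simp hdis (w := 0) hz h (l2 := []) (by simp) nd (by simp) g trivial b hb a
    trivial (fun q _ => by simp [dt]) (by simp)
  simpa using this

end Pool.Agent.AllS
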